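import Pool.Agent.H20.OPF.Exact
import Pool.Agent.H34.GP.Base3

set_option autoImplicit false
set_option linter.unusedSectionVars false

/-!
# Change of basis, exterior degree `0`, no variables

`exact_of_one` : exactness for one basis of the forms of degree `d` gives `Exact`.
`exact_zero` : exactness at exterior degree `0`.
`exact_fin0` : no variables.
-/

open MvPolynomial

namespace Pool.Agent.H18.OPM

open Pool.Agent.H27.OP Pool.Agent.H39.OP Pool.Agent.H34.GP Pool.Agent.H20.OPF

variable {r d N N' : ℕ}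

/-- exterior multiplication by a basis element -/
lemma Ee_phi (B : Bs (Fin r) ℂ N d) (i : Fin N)
    (f : Finset (Fin N) → MvPolynomial (Fin r) ℂ) : (SK B).Ee (B.φ i) f = aE ℂ i f := by
  rw [Fk.Ee_apply, LinearMap.sum_apply]
  have h1 : ∀ μ ∈ Mo (Fin r) d, (coeff μ (B.φ i) • (SK B).E μ) f
      = ∑ j, (B.α μ j * B.γ μ i) • aE ℂ j f := by
    intro μ hμ
    rw [LinearMap.smul_apply, SK_E, Finset.smul_sum]
    refine Finset.sum_congr rfl fun j _ => ?_
    rw [smul_smul, ← B.coe μ hμ, mul_comm]
  rw [Finset.sum_congr rfl h1, Finset.sum_comm]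
  have h2 : ∀ j ∈ (Finset.univ : Finset (Fin N)),
      ∑ μ ∈ Mo (Fin r) d, (B.α μ j * B.γ μ i) • aE ℂ j f = if j = i then aE ℂ i f else 0 := by
    intro j _
    rw [← Finset.sum_smul, B.ag]
    by_cases hij : j = i
    · subst hij
      rw [if_pos rfl, if_pos rfl, one_smul]
    · rw [if_neg hij, if_neg hij, zero_smul]
  rw [Finset.sum_congr rfl h2, Finset.sum_ite_eq', if_pos (Finset.mem_univ _)]

/-- a linear map which fixes the vacuum and commutes with multiplications and creation operators -/
lemma eq_self_of_gen (B : Bs (Fin r) ℂ N d)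
    (L : (Finset (Fin N) → MvPolynomial (Fin r) ℂ) →ₗ[ℂ]
      (Finset (Fin N) → MvPolynomial (Fin r) ℂ))
    (h0 : L (vac r N) = vac r N) (hm : ∀ (a : MvPolynomial (Fin r) ℂ) f,
      L ((SK B).m a f) = (SK B).m a (L f))
    (hE : ∀ i f, L (aE ℂ i f) = aE ℂ i (L f)) (f : Finset (Fin N) → MvPolynomial (Fin r) ℂ) :
    L f = f := by
  classical
  have hb : ∀ I : Finset (Fin N),
      L (Pi.single I 1) = Pi.single I 1 := by
    intro I
    induction I using Finset.induction_on with
    | empty =>
      have h1 : (Pi.single ∅ 1 : Finset (Fin N) → MvPolynomial (Fin r) ℂ) = vac r N := by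
        funext I
        unfold vac
        rw [Pi.single_apply]
      rw [h1, h0]
    | insert i I hi ih =>
      have h1 : (Pi.single (insert i I) 1 : Finset (Fin N) → MvPolynomial (Fin r) ℂ)
          = sgn ℂ I i • aE ℂ i (Pi.single I 1) := by
        funext J
        rw [Pi.smul_apply, aE_apply]
        by_cases hJ : J = insert i I
        · subst hJ
          rw [Pi.single_eq_same, if_pos (Finset.mem_insert_self _ _), Finset.erase_insert hi,
            Pi.single_eq_same, sgn_insert_self, smul_smul, sgn_sq, one_smul]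
        · rw [Pi.single_eq_of_ne hJ]
          split_ifs with h
          · rw [Pi.single_eq_of_ne, smul_zero, smul_zero]
            intro h'
            exact hJ (by rw [← h', Finset.insert_erase h])
          · rw [smul_zero]
      rw [h1, map_smul, hE, ih]
  have hf : f = ∑ I : Finset (Fin N), (SK B).m (f I) (Pi.single I 1) := by
    funext J
    rw [Finset.sum_apply, Finset.sum_eq_single J]
    · rw [SK_m, Pi.single_eq_same, mul_one]
    · intro I _ hI
      rw [SK_m, Pi.single_eq_of_ne hI.symm, mul_zero]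
    · intro h
      exact absurd (Finset.mem_univ _) h
  rw [hf, map_sum]
  refine Finset.sum_congr rfl fun I _ => ?_
  rw [hm, hb]

/-- change of basis and back is the identity -/
lemma Psi_Psi (B : Bs (Fin r) ℂ N d) (B' : Bs (Fin r) ℂ N' d)
    (f : Finset (Fin N) → MvPolynomial (Fin r) ℂ) :
    Psi (SK B) B' X (vac r N) (Psi (SK B') B X (vac r N') f) = f := by
  refine eq_self_of_gen B ((Psi (SK B) B' X (vac r N)).comp (Psi (SK B') B X (vac r N')))
    ?_ ?_ ?_ f
  · rw [LinearMap.comp_apply, Psi_vac, Psi_vac]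
  · intro a g
    rw [LinearMap.comp_apply, LinearMap.comp_apply, Psi_m, Psi_m, aeval_X_left_apply,
      aeval_X_left_apply]
  · intro i g
    rw [← Ee_phi B, ← Ee_phi B, LinearMap.comp_apply, LinearMap.comp_apply,
      Psi_Ee _ _ _ _ (B.hom i), aeval_X_left_apply, Psi_Ee _ _ _ _ (B.hom i), aeval_X_left_apply]

/-- **exactness does not depend on the basis** -/
theorem exact_of_one {p K N0 : ℕ} (B0 : Bs (Fin r) ℂ N0 d)
    (h : ∀ κ : Finset (Fin N0) → MvPolynomial (Fin r) ℂ,
      κ ∈ GK (Fin r) ℂ N0 p K → (SK B0).del κ = 0 → κ ∈ LinearMap.range (SK B0).del) :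
    Exact r d p K := by
  intro N B κ hκ hz
  have hX : ∀ i : Fin r, (X i : MvPolynomial (Fin r) ℂ).IsHomogeneous 1 :=
    fun i => isHomogeneous_X _ _
  obtain ⟨ω, hω⟩ := h (Psi (SK B0) B X (vac r N0) κ) (Psi_GK B B0 hX hκ) (by
    rw [← Psi_del (SK B0) B X (vac r N0) hX (del_vac' B0), hz, map_zero])
  refine ⟨Psi (SK B) B0 X (vac r N) ω, ?_⟩
  rw [← Psi_del (SK B) B0 X (vac r N) hX (del_vac' B), hω, Psi_Psi]

/-- no variables -/
theorem exact_fin0 {p K : ℕ} (hK : 1 ≤ K) : Exact 0 d p K := by
  intro N B κ hκ _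
  have h0 : κ = 0 := by
    funext I
    refine MvPolynomial.ext _ _ fun ν => ?_
    rw [Pi.zero_apply, coeff_zero]
    by_contra h
    have h1 : ν.degree = K := by
      rw [Finsupp.degree_eq_weight_one]
      exact (hκ I).1 h
    have h2 : ν = 0 := Subsingleton.elim _ _
    rw [h2, map_zero] at h1
    omega
  rw [h0]
  exact Submodule.zero_mem _

/-- exterior degree `0` -/
theorem exact_zero (d r : ℕ) (hd : 1 ≤ d) : Exact r d 0 (2 * d) := by
  rcases r with _ | r
  · exact exact_fin0 (by omega)
  · intro N B κ hκ hz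
    obtain ⟨e, he⟩ : ∃ e, d = e + 1 := ⟨d - 1, by omega⟩
    exact abstract_main (AK B) (XK B) (fun x : Fin (r + 1) => (x : ℕ)) (fun _ _ h => h) he
      (fun a h1 h2 => by omega) le_rfl hκ hz

end Pool.Agent.H18.OPM
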